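import Mathlib
import Pool.Agent.Lib.Subspace.Main

set_option autoImplicit false

/-!
Diophantine core: approximate relations `N 3^t - N 3^s 2^(t-s) = 6^v 2^t M` with `M ≠ 0`, precise
to `6^(-L)` relative to `6^v 2^t`, are impossible for `t ≤ A L`, `L` and `s` large.
-/

namespace Pool.Agent.Lib.MP_881467_an.H75

open Pool.Agent.Lib

/-- the height factor -/
lemma height_le (c A L t : ℕ) (hc : 1 ≤ c) (ht : t ≤ A * L) (hL : c ≤ 2 ^ L) :
    ((c : ℝ) * 3 ^ t) ^ (1 / ((A : ℝ) + 1)) ≤ 6 ^ (L + 1) := by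
  have hA : (0 : ℝ) < (A : ℝ) + 1 := by positivity
  have hc1 : (1 : ℝ) ≤ c := by exact_mod_cast hc
  rw [Real.mul_rpow (by positivity) (by positivity)]
  have h1 : (c : ℝ) ^ (1 / ((A : ℝ) + 1)) ≤ c := by
    calc (c : ℝ) ^ (1 / ((A : ℝ) + 1)) ≤ (c : ℝ) ^ (1 : ℝ) := by
          refine Real.rpow_le_rpow_of_exponent_le hc1 ?_
          rw [div_le_one hA]
          linarith [Nat.cast_nonneg (α := ℝ) A]
      _ = c := Real.rpow_one _
  have h2 : ((3 : ℝ) ^ t) ^ (1 / ((A : ℝ) + 1)) ≤ 3 ^ L := by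
    rw [← Real.rpow_natCast, ← Real.rpow_mul (by norm_num), ← Real.rpow_natCast]
    refine Real.rpow_le_rpow_of_exponent_le (by norm_num) ?_
    rw [mul_one_div, div_le_iff₀ hA]
    have : (t : ℝ) ≤ A * L := by exact_mod_cast ht
    nlinarith [Nat.cast_nonneg (α := ℝ) L]
  have h3 : (c : ℝ) ≤ 2 ^ L := by exact_mod_cast hL
  calc (c : ℝ) ^ (1 / ((A : ℝ) + 1)) * ((3 : ℝ) ^ t) ^ (1 / ((A : ℝ) + 1)) ≤ c * 3 ^ L := by
        gcongr
    _ ≤ 2 ^ L * 3 ^ L := by gcongr
    _ = 6 ^ L := by rw [← mul_pow]; norm_num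
    _ ≤ 6 ^ (L + 1) := pow_le_pow_right₀ (by norm_num) (by omega)

/-- two variables -/
lemma two (K : ℤ) (C A : ℕ) : ∃ n₀ : ℕ, ∀ (L s t v : ℕ) (M : ℤ), n₀ ≤ L → n₀ ≤ t → s ≤ t →
    t ≤ A * L →
    |(K : ℝ) * 3 ^ s - 6 ^ v * 2 ^ t * M| * 6 ^ (L + 1) ≤ 6 ^ v * 2 ^ t →
    |(K : ℝ) * 3 ^ s - 6 ^ v * 2 ^ t * M| ≤ C * 2 ^ t → M = 0 := by
  set c : ℕ := K.natAbs + C + 1 with hc
  obtain ⟨F, hF0, hF⟩ := Subspace.subspace_stmt 2 le_rfl !![1, 0; K, -1] 1 1
    (by simp [Matrix.det_fin_two]) (by simp) (by simp) (1 / ((A : ℝ) + 1)) (by positivity)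
  obtain ⟨B, hB⟩ : ∃ B : ℕ, ∀ h ∈ F, ∀ k, (h k).natAbs ≤ B :=
    ⟨F.sup fun h => Finset.univ.sup fun k => (h k).natAbs, fun h hh k =>
      (Finset.le_sup (f := fun k => (h k).natAbs) (Finset.mem_univ k)).trans
        (Finset.le_sup (f := fun h : Fin 2 → ℤ => Finset.univ.sup fun k => (h k).natAbs) hh)⟩
  refine ⟨B + c + 1, fun L s t v M hL ht hst htA h1 h2 => ?_⟩
  set δ := |(K : ℝ) * 3 ^ s - 6 ^ v * 2 ^ t * M| with hδ
  have hcL : c ≤ 2 ^ L := (by omega : c ≤ L).trans Nat.lt_two_pow_self.le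
  obtain ⟨h, hh, hsum⟩ := hF ![3 ^ s, 6 ^ v * 2 ^ t * M] ![0, v + t] ![s, v]
    (fun h0 => by
      have := congrFun h0 0
      simp at this)
    (by
      intro k
      fin_cases k
      · simp
      · simp only [Matrix.one_mulVec]
        refine ⟨3 ^ v * M, ?_⟩
        simp only [Fin.mk_one, Matrix.cons_val_one, Matrix.cons_val_fin_one]
        rw [show (6 : ℤ) = 2 * 3 by norm_num, mul_pow, pow_add]
        ring)
    (by
      intro k
      fin_cases k
      · simp
      · simp only [Matrix.one_mulVec]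
        refine ⟨2 ^ v * 2 ^ t * M, ?_⟩
        simp only [Fin.mk_one, Matrix.cons_val_one, Matrix.cons_val_fin_one]
        rw [show (6 : ℤ) = 2 * 3 by norm_num, mul_pow]
        ring)
    ((c : ℝ) * 3 ^ t)
    (by
      have h3 : (3 : ℝ) ^ s ≤ 3 ^ t := pow_le_pow_right₀ (by norm_num) hst
      have h23 : (2 : ℝ) ^ t ≤ 3 ^ t := pow_le_pow_left₀ (by norm_num) (by norm_num) t
      have hcr : (c : ℝ) = |(K : ℝ)| + C + 1 := by
        rw [hc]
        push_cast
        rw [Nat.cast_natAbs, Int.cast_abs]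
      intro k
      fin_cases k
      · simp only [Fin.zero_eta, Matrix.cons_val_zero]
        push_cast
        rw [abs_of_pos (by positivity), hcr]
        nlinarith [abs_nonneg (K : ℝ), Nat.cast_nonneg (α := ℝ) C, pow_pos (by norm_num : (0:ℝ) < 3) t]
      · simp only [Fin.mk_one, Matrix.cons_val_one, Matrix.cons_val_fin_one]
        push_cast
        calc |(6 : ℝ) ^ v * 2 ^ t * M| ≤ |(K : ℝ) * 3 ^ s| + δ := by
              have e : (6 : ℝ) ^ v * 2 ^ t * M =
                (K : ℝ) * 3 ^ s - ((K : ℝ) * 3 ^ s - 6 ^ v * 2 ^ t * M) := by ring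
              rw [e]
              exact abs_sub _ _
          _ ≤ |(K : ℝ)| * 3 ^ t + C * 3 ^ t := by
              rw [abs_mul, abs_of_pos (pow_pos (by norm_num : (0:ℝ) < 3) s)]
              refine add_le_add (mul_le_mul_of_nonneg_left h3 (abs_nonneg _)) (h2.trans ?_)
              exact mul_le_mul_of_nonneg_left h23 (Nat.cast_nonneg _)
          _ ≤ c * 3 ^ t := by
              rw [hcr]
              nlinarith [pow_pos (by norm_num : (0:ℝ) < 3) t])
    (by
      have hQ := height_le c A L t (by omega) htA hcL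
      rw [Fin.prod_univ_two, Fin.sum_univ_two, Fin.sum_univ_two]
      simp only [Matrix.mulVec, dotProduct, Fin.sum_univ_two, Matrix.of_apply, Matrix.cons_val_zero,
        Matrix.cons_val_one, Matrix.cons_val_fin_one]
      push_cast
      have e1 : |(1 : ℝ) * 3 ^ s + 0 * (6 ^ v * 2 ^ t * M)| = 3 ^ s := by
        rw [zero_mul, add_zero, one_mul, abs_of_pos (by positivity)]
      have e2 : |(K : ℝ) * 3 ^ s + -1 * (6 ^ v * 2 ^ t * M)| = δ := by
        rw [hδ]
        congr 1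
        ring
      rw [e1, e2]
      calc (3 : ℝ) ^ s * δ * ((c : ℝ) * 3 ^ t) ^ (1 / ((A : ℝ) + 1))
          ≤ 3 ^ s * δ * 6 ^ (L + 1) := by gcongr
        _ = 3 ^ s * (δ * 6 ^ (L + 1)) := by ring
        _ ≤ 3 ^ s * (6 ^ v * 2 ^ t) := by gcongr
        _ = 2 ^ (0 + (v + t)) * 3 ^ (s + v) := by
            rw [show (6 : ℝ) = 2 * 3 by norm_num, mul_pow, zero_add, pow_add, pow_add]
            ring)
  rw [Fin.sum_univ_two] at hsum
  simp only [Matrix.cons_val_zero, Matrix.cons_val_one, Matrix.cons_val_fin_one] at hsum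
  have hb0 := hB h hh 0
  by_cases hz : h 0 = 0
  · have h1ne : h 1 ≠ 0 := by
      intro h1z
      apply hF0 h hh
      funext k
      fin_cases k
      · exact hz
      · exact h1z
    rw [hz, zero_mul, zero_add] at hsum
    have : (6 : ℤ) ^ v * 2 ^ t ≠ 0 := by positivity
    rcases mul_eq_zero.1 hsum with h3 | h3
    · exact absurd h3 h1ne
    · rcases mul_eq_zero.1 h3 with h4 | h4
      · exact absurd h4 this
      · exact h4
  · exfalso
    have hd : (2 : ℤ) ^ t ∣ h 0 * 3 ^ s := by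
      refine ⟨-(h 1 * 6 ^ v * M), ?_⟩
      linear_combination hsum
    have hcop : IsCoprime ((2 : ℤ) ^ t) (3 ^ s) := IsCoprime.pow (by norm_num)
    have hd2 : (2 : ℤ) ^ t ∣ h 0 := hcop.dvd_of_dvd_mul_right hd
    have := Int.natAbs_dvd_natAbs.2 hd2
    rw [Int.natAbs_pow] at this
    have h5 := Nat.le_of_dvd (Int.natAbs_pos.2 hz) this
    have h6 : t < 2 ^ t := Nat.lt_two_pow_self
    simp at h5
    omega

/-- three variables -/
lemma three (N C A : ℕ) (hN : 0 < N) : ∃ n₀ : ℕ, ∀ (L s t v : ℕ) (M : ℤ), n₀ ≤ L → n₀ ≤ s →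
    s < t → t ≤ A * L → 1 ≤ v →
    |(N : ℝ) * 3 ^ t - N * (3 ^ s * 2 ^ (t - s)) - 6 ^ v * 2 ^ t * M| * 6 ^ (L + 1)
      ≤ 6 ^ v * 2 ^ t →
    |(N : ℝ) * 3 ^ t - N * (3 ^ s * 2 ^ (t - s)) - 6 ^ v * 2 ^ t * M| ≤ C * 2 ^ t → M = 0 := by
  set c : ℕ := 2 * N + C + 1 with hc
  obtain ⟨F, hF0, hF⟩ := Subspace.subspace_stmt 3 (by norm_num)
    !![1, 0, 0; 0, 1, 0; (N : ℤ), -(N : ℤ), -1] 1 1
    (by simp [Matrix.det_fin_three]) (by simp) (by simp) (1 / ((A : ℝ) + 1)) (by positivity)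
  obtain ⟨B, hB⟩ : ∃ B : ℕ, ∀ h ∈ F, ∀ k, (h k).natAbs ≤ B :=
    ⟨F.sup fun h => Finset.univ.sup fun k => (h k).natAbs, fun h hh k =>
      (Finset.le_sup (f := fun k => (h k).natAbs) (Finset.mem_univ k)).trans
        (Finset.le_sup (f := fun h : Fin 3 → ℤ => Finset.univ.sup fun k => (h k).natAbs) hh)⟩
  choose m hm using fun p : ℕ => two ((N : ℤ) * (3 ^ p - 2 ^ p)) C A
  refine ⟨B + c + 1 + ∑ p ∈ Finset.range (B + 1), m p, fun L s t v M hL hs hst htA hv h1 h2 => ?_⟩
  set δ := |(N : ℝ) * 3 ^ t - N * (3 ^ s * 2 ^ (t - s)) - 6 ^ v * 2 ^ t * M| with hδ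
  have hcL : c ≤ 2 ^ L := (by omega : c ≤ L).trans Nat.lt_two_pow_self.le
  have hsum : ∃ h ∈ F, h 0 * 3 ^ t + h 1 * (3 ^ s * 2 ^ (t - s)) + h 2 * (6 ^ v * 2 ^ t * M) = 0 := by
    obtain ⟨h, hh, hsum⟩ := hF ![3 ^ t, 3 ^ s * 2 ^ (t - s), 6 ^ v * 2 ^ t * M] ![0, t - s, v + t]
      ![t, s, v]
      (fun h0 => by
        have := congrFun h0 0
        simp at this)
      (by
        intro k
        fin_cases k
        · simp
        · simp
        · simp only [Matrix.one_mulVec]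
          refine ⟨3 ^ v * M, ?_⟩
          simp only [Fin.reduceFinMk, Matrix.cons_val]
          rw [show (6 : ℤ) = 2 * 3 by norm_num, mul_pow, pow_add]
          ring)
      (by
        intro k
        fin_cases k
        · simp
        · simp
        · simp only [Matrix.one_mulVec]
          refine ⟨2 ^ v * 2 ^ t * M, ?_⟩
          simp only [Fin.reduceFinMk, Matrix.cons_val]
          rw [show (6 : ℤ) = 2 * 3 by norm_num, mul_pow]
          ring)
      ((c : ℝ) * 3 ^ t)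
      (by
        have h23 : (2 : ℝ) ^ t ≤ 3 ^ t := pow_le_pow_left₀ (by norm_num) (by norm_num) t
        have h32 : (3 : ℝ) ^ s * 2 ^ (t - s) ≤ 3 ^ t := by
          calc (3 : ℝ) ^ s * 2 ^ (t - s) ≤ 3 ^ s * 3 ^ (t - s) := by gcongr; norm_num
            _ = 3 ^ t := by rw [← pow_add]; congr 1; omega
        have h3p : (0 : ℝ) < 3 ^ t := by positivity
        have hcr : (c : ℝ) = 2 * N + C + 1 := by
          rw [hc]
          push_cast
          ring
        have hNr : (0 : ℝ) ≤ N := Nat.cast_nonneg _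
        have hCr : (0 : ℝ) ≤ C := Nat.cast_nonneg _
        intro k
        fin_cases k
        · simp only [Fin.zero_eta, Matrix.cons_val_zero]
          push_cast
          rw [abs_of_pos (by positivity), hcr]
          nlinarith
        · simp only [Fin.mk_one, Matrix.cons_val_one]
          push_cast
          rw [abs_of_pos (by positivity), hcr]
          nlinarith
        · simp only [Fin.reduceFinMk, Matrix.cons_val]
          push_cast
          calc |(6 : ℝ) ^ v * 2 ^ t * M| ≤ |(N : ℝ) * 3 ^ t - N * (3 ^ s * 2 ^ (t - s))| + δ := by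
                have e : (6 : ℝ) ^ v * 2 ^ t * M = ((N : ℝ) * 3 ^ t - N * (3 ^ s * 2 ^ (t - s))) -
                  ((N : ℝ) * 3 ^ t - N * (3 ^ s * 2 ^ (t - s)) - 6 ^ v * 2 ^ t * M) := by ring
                rw [e]
                exact abs_sub _ _
            _ ≤ N * 3 ^ t + C * 3 ^ t := by
                refine add_le_add ?_ (h2.trans (mul_le_mul_of_nonneg_left h23 hCr))
                rw [abs_of_nonneg (by nlinarith)]
                have : (0 : ℝ) ≤ N * (3 ^ s * 2 ^ (t - s)) := by positivity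
                linarith
            _ ≤ c * 3 ^ t := by
                rw [hcr]
                nlinarith)
      (by
        have hQ := height_le c A L t (by omega) htA hcL
        rw [Fin.prod_univ_three, Fin.sum_univ_three, Fin.sum_univ_three]
        simp only [Matrix.mulVec, dotProduct, Fin.sum_univ_three, Matrix.of_apply, Matrix.cons_val]
        push_cast
        have e1 : |(1 : ℝ) * 3 ^ t + 0 * (3 ^ s * 2 ^ (t - s)) + 0 * (6 ^ v * 2 ^ t * M)| = 3 ^ t := by
          rw [zero_mul, zero_mul, add_zero, add_zero, one_mul, abs_of_pos (by positivity)]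
        have e3 : |(0 : ℝ) * 3 ^ t + 1 * (3 ^ s * 2 ^ (t - s)) + 0 * (6 ^ v * 2 ^ t * M)| =
            3 ^ s * 2 ^ (t - s) := by
          rw [zero_mul, zero_mul, add_zero, zero_add, one_mul, abs_of_pos (by positivity)]
        have e2 : |(N : ℝ) * 3 ^ t + -N * (3 ^ s * 2 ^ (t - s)) + -1 * (6 ^ v * 2 ^ t * M)| = δ := by
          rw [hδ]
          congr 1
          ring
        rw [e1, e2, e3]
        calc (3 : ℝ) ^ t * (3 ^ s * 2 ^ (t - s)) * δ * ((c : ℝ) * 3 ^ t) ^ (1 / ((A : ℝ) + 1))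
            ≤ 3 ^ t * (3 ^ s * 2 ^ (t - s)) * δ * 6 ^ (L + 1) := by gcongr
          _ = 3 ^ t * (3 ^ s * 2 ^ (t - s)) * (δ * 6 ^ (L + 1)) := by ring
          _ ≤ 3 ^ t * (3 ^ s * 2 ^ (t - s)) * (6 ^ v * 2 ^ t) := by gcongr
          _ = 2 ^ (0 + (t - s) + (v + t)) * 3 ^ (t + s + v) := by
              rw [show (6 : ℝ) = 2 * 3 by norm_num, mul_pow, zero_add, pow_add, pow_add, pow_add,
                pow_add]
              ring)
    refine ⟨h, hh, ?_⟩
    rw [Fin.sum_univ_three] at hsum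
    simpa only [Matrix.cons_val] using hsum
  obtain ⟨h, hh, hsum⟩ := hsum
  have hp2 : (2 : ℤ) ^ t = 2 ^ (t - s) * 2 ^ s := by
    rw [← pow_add]
    congr 1
    omega
  by_cases hz : h 0 = 0
  · by_cases hz1 : h 1 = 0
    · have h2ne : h 2 ≠ 0 := by
        intro h2z
        apply hF0 h hh
        funext k
        fin_cases k
        · exact hz
        · exact hz1
        · exact h2z
      rw [hz, hz1, zero_mul, zero_mul, zero_add, zero_add] at hsum
      have : (6 : ℤ) ^ v * 2 ^ t ≠ 0 := by positivity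
      rcases mul_eq_zero.1 hsum with h3 | h3
      · exact absurd h3 h2ne
      · rcases mul_eq_zero.1 h3 with h4 | h4
        · exact absurd h4 this
        · exact h4
    · exfalso
      rw [hz, zero_mul, zero_add] at hsum
      have hd : (2 : ℤ) ^ s ∣ h 1 * 3 ^ s := by
        refine ⟨-(h 2 * 6 ^ v * M), ?_⟩
        have h2p : (2 : ℤ) ^ (t - s) ≠ 0 := by positivity
        apply mul_left_cancel₀ h2p
        rw [hp2] at hsum
        linear_combination hsum
      have hcop : IsCoprime ((2 : ℤ) ^ s) (3 ^ s) := IsCoprime.pow (by norm_num)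
      have hd2 : (2 : ℤ) ^ s ∣ h 1 := hcop.dvd_of_dvd_mul_right hd
      have := Int.natAbs_dvd_natAbs.2 hd2
      rw [Int.natAbs_pow] at this
      have h5 := Nat.le_of_dvd (Int.natAbs_pos.2 hz1) this
      have h6 : s < 2 ^ s := Nat.lt_two_pow_self
      have h7 := hB h hh 1
      simp at h5
      omega
  · have hpB : t - s ≤ B := by
      have hd : (2 : ℤ) ^ (t - s) ∣ h 0 * 3 ^ t := by
        refine ⟨-(h 1 * 3 ^ s + h 2 * (6 ^ v * 2 ^ s * M)), ?_⟩
        rw [hp2] at hsum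
        linear_combination hsum
      have hcop : IsCoprime ((2 : ℤ) ^ (t - s)) (3 ^ t) := IsCoprime.pow (by norm_num)
      have hd2 : (2 : ℤ) ^ (t - s) ∣ h 0 := hcop.dvd_of_dvd_mul_right hd
      have := Int.natAbs_dvd_natAbs.2 hd2
      rw [Int.natAbs_pow] at this
      have h5 := Nat.le_of_dvd (Int.natAbs_pos.2 hz) this
      have h6 : t - s < 2 ^ (t - s) := Nat.lt_two_pow_self
      have h7 := hB h hh 0
      simp at h5
      omega
    have hmem : t - s ∈ Finset.range (B + 1) := Finset.mem_range.2 (by omega)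
    have hle : m (t - s) ≤ ∑ p ∈ Finset.range (B + 1), m p :=
      Finset.single_le_sum (f := m) (fun _ _ => Nat.zero_le _) hmem
    have h3p : (3 : ℝ) ^ t = 3 ^ (t - s) * 3 ^ s := by
      rw [← pow_add]
      congr 1
      omega
    have he : (((N : ℤ) * (3 ^ (t - s) - 2 ^ (t - s)) : ℤ) : ℝ) * 3 ^ s - 6 ^ v * 2 ^ t * M =
        (N : ℝ) * 3 ^ t - N * (3 ^ s * 2 ^ (t - s)) - 6 ^ v * 2 ^ t * M := by
      push_cast
      rw [h3p]
      ring
    exact hm (t - s) L s t v M (by omega) (by omega) hst.le htA (by rw [he]; exact h1)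
      (by rw [he]; exact h2)

end Pool.Agent.Lib.MP_881467_an.H75
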