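import Pool.Agent.Lib.MP_881467_an.H75.Core
import Pool.Agent.Lib.MP_881467_an.H79.Conf

set_option autoImplicit false

/-!
Windows around a fixed cell are pairwise different along the orbit for linearly many times.
-/

namespace Pool.Agent.Lib.MP_881467_an.H75

open Pool.Agent.Lib.MP_881467_an Pool.Agent.Lib.MP_881467_an.H79

/-- digits below cell `b` are determined by the floor at `b` -/
lemma floor_below (y : ℝ) (b : ℤ) (k : ℕ) : ⌊y * 6 ^ (b - k)⌋ = ⌊y * 6 ^ b⌋ / 6 ^ k := by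
  have h := floor_shift (y * 6 ^ b) 0 (-(k : ℤ)) k (by simp)
  simp only [pow_zero, mul_one] at h
  rw [← h]
  congr 1
  rw [mul_assoc, ← zpow_add₀ (by norm_num : (6 : ℝ) ≠ 0)]
  rfl

theorem distinct (x : ℤ → Fin 6) (hx : {i | x i ≠ 0}.Finite) (hne : ∃ i, x i ≠ 0) (c : ℤ)
    (A : ℕ) : ∃ n₀ : ℕ, ∀ a b : ℤ, a ≤ c → c ≤ b → (n₀ : ℤ) ≤ b - a → ∀ s t : ℕ, n₀ ≤ s → s < t →
      (t : ℤ) ≤ A * (b - a) →
      ∃ i, a ≤ i ∧ i ≤ b ∧ mulThreeHalves^[s] x i ≠ mulThreeHalves^[t] x i := by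
  obtain ⟨M, n, hM, rfl⟩ := exists_cfg x hx hne
  have h60 : (6 : ℝ) ≠ 0 := by norm_num
  set K := c.natAbs with hK
  have hMr : (0 : ℝ) < M := by exact_mod_cast hM
  obtain ⟨n₁, hn₁⟩ := three (M * 6 ^ K) (6 ^ (2 * K + n)) A (by positivity)
  obtain ⟨n₂, hn₂⟩ : ∃ n₂ : ℕ, 2 * 6 ^ K / ((M : ℝ) / 6 ^ n) < (3 / 2 : ℝ) ^ n₂ :=
    pow_unbounded_of_one_lt _ (by norm_num)
  refine ⟨n₁ + n₂ + 1, fun a b hac hcb hab s t hs hst htA => ?_⟩
  by_contra hcon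
  push Not at hcon
  obtain ⟨L, hL⟩ : ∃ L : ℕ, b - a = L := ⟨(b - a).toNat, by omega⟩
  have hα : (0 : ℝ) < (M : ℝ) / 6 ^ n := by positivity
  set α := (M : ℝ) / 6 ^ n with hαdef
  set Y : ℕ → ℝ := fun r => (3 / 2 : ℝ) ^ r * α with hY
  have hmod : ⌊Y t * 6 ^ b⌋ ≡ ⌊Y s * 6 ^ b⌋ [ZMOD 6 ^ (L + 1)] := by
    refine modEq_of_digit _ _ _ fun k hk => ?_
    have h1 := hcon (b - k) (by omega) (by omega)
    have h2 := iter_digit M n t (b - k)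
    have h3 := iter_digit M n s (b - k)
    rw [h1] at h3
    rw [h2, floor_below, floor_below] at h3
    exact h3
  obtain ⟨M', hM'⟩ := hmod.symm.dvd
  have hfrac : |Y t * 6 ^ b - Y s * 6 ^ b - 6 ^ (L + 1) * (M' : ℝ)| ≤ 1 := by
    have e : (6 : ℝ) ^ (L + 1) * (M' : ℝ) = (⌊Y t * 6 ^ b⌋ : ℝ) - ⌊Y s * 6 ^ b⌋ := by
      have := congrArg (fun z : ℤ => (z : ℝ)) hM'
      push_cast at this
      linarith
    rw [e, abs_le]
    have h1 := Int.floor_le (Y t * 6 ^ b)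
    have h2 := Int.lt_floor_add_one (Y t * 6 ^ b)
    have h3 := Int.floor_le (Y s * 6 ^ b)
    have h4 := Int.lt_floor_add_one (Y s * 6 ^ b)
    constructor <;> linarith
  obtain ⟨u, hu⟩ : ∃ u : ℕ, (K : ℤ) + 1 - a = u + 1 := ⟨((K : ℤ) - a).toNat, by omega⟩
  have hkey : ((M * 6 ^ K : ℕ) : ℝ) * 3 ^ t - (M * 6 ^ K : ℕ) * (3 ^ s * 2 ^ (t - s)) -
      6 ^ (u + 1 + n) * 2 ^ t * M' =
      6 ^ (u + 1 + n) * 2 ^ t / 6 ^ (L + 1) *
        (Y t * 6 ^ b - Y s * 6 ^ b - 6 ^ (L + 1) * (M' : ℝ)) := by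
    have hb : b = K + L - u := by omega
    have e6 : (6 : ℝ) ^ b = 6 ^ K * 6 ^ L / 6 ^ u := by
      rw [hb, zpow_sub₀ h60, zpow_add₀ h60, zpow_natCast, zpow_natCast, zpow_natCast]
    have e2 : (2 : ℝ) ^ t = 2 ^ (t - s) * 2 ^ s := by
      rw [← pow_add]
      congr 1
      omega
    rw [e6]
    simp only [hY, hαdef]
    push_cast
    rw [div_pow, div_pow, pow_succ (6 : ℝ) L, pow_add (6 : ℝ) (u + 1) n, pow_succ (6 : ℝ) u]
    have h2s : (2 : ℝ) ^ s ≠ 0 := by positivity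
    have h2t : (2 : ℝ) ^ t ≠ 0 := by positivity
    have e3 : (3 : ℝ) ^ s / 2 ^ s = 3 ^ s * 2 ^ (t - s) / 2 ^ t := by
      rw [e2]
      field_simp
    rw [e3]
    field_simp
  have hpos : (0 : ℝ) < 6 ^ (u + 1 + n) * 2 ^ t / 6 ^ (L + 1) := by positivity
  have habs : |((M * 6 ^ K : ℕ) : ℝ) * 3 ^ t - (M * 6 ^ K : ℕ) * (3 ^ s * 2 ^ (t - s)) -
      6 ^ (u + 1 + n) * 2 ^ t * M'| ≤ 6 ^ (u + 1 + n) * 2 ^ t / 6 ^ (L + 1) := by
    rw [hkey, abs_mul, abs_of_pos hpos]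
    exact mul_le_of_le_one_right hpos.le hfrac
  have hM0 : M' = 0 := by
    refine hn₁ L s t (u + 1 + n) M' (by omega) (by omega) hst ?_ (by omega) ?_ ?_
    · have : (t : ℤ) ≤ ((A * L : ℕ) : ℤ) := by
        rw [hL] at htA
        push_cast
        exact htA
      exact_mod_cast this
    · calc _ ≤ (6 : ℝ) ^ (u + 1 + n) * 2 ^ t / 6 ^ (L + 1) * 6 ^ (L + 1) :=
            mul_le_mul_of_nonneg_right habs (by positivity)
        _ = 6 ^ (u + 1 + n) * 2 ^ t := by field_simp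
    · refine habs.trans ?_
      rw [div_le_iff₀ (by positivity)]
      have : (6 : ℝ) ^ (u + 1 + n) ≤ 6 ^ (2 * K + n) * 6 ^ (L + 1) := by
        rw [← pow_add]
        exact pow_le_pow_right₀ (by norm_num) (by omega)
      push_cast
      calc (6 : ℝ) ^ (u + 1 + n) * 2 ^ t ≤ 6 ^ (2 * K + n) * 6 ^ (L + 1) * 2 ^ t := by gcongr
        _ = _ := by ring
  rw [hM0] at hfrac
  have hYs : (2 : ℝ) * 6 ^ K < Y s := by
    have h1 : (3 / 2 : ℝ) ^ n₂ ≤ (3 / 2) ^ s := pow_le_pow_right₀ (by norm_num) (by omega)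
    rw [div_lt_iff₀ hα] at hn₂
    calc (2 : ℝ) * 6 ^ K < (3 / 2) ^ n₂ * α := hn₂
      _ ≤ (3 / 2) ^ s * α := by gcongr
  have hYt : (3 / 2 : ℝ) * Y s ≤ Y t := by
    have h1 : (3 / 2 : ℝ) ^ (s + 1) ≤ (3 / 2) ^ t := pow_le_pow_right₀ (by norm_num) (by omega)
    calc (3 / 2 : ℝ) * Y s = (3 / 2) ^ (s + 1) * α := by
          simp only [hY]
          rw [pow_succ]
          ring
      _ ≤ (3 / 2) ^ t * α := by gcongr
  have h6b : 1 ≤ (6 : ℝ) ^ K * 6 ^ b := by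
    rw [← zpow_natCast, ← zpow_add₀ h60]
    exact one_le_zpow₀ (by norm_num) (by omega)
  have h6bp : (0 : ℝ) < 6 ^ b := by positivity
  have h5 := (abs_le.1 hfrac).2
  simp only [Int.cast_zero, mul_zero, sub_zero] at h5
  have h6 : (6 : ℝ) ^ K * 6 ^ b < (Y t - Y s) * 6 ^ b := by
    apply mul_lt_mul_of_pos_right _ h6bp
    linarith
  rw [sub_mul] at h6
  linarith

end Pool.Agent.Lib.MP_881467_an.H75
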